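import Pool.Agent.Helper19.Qh.Stmts

set_option autoImplicit false

/-!
# GREEN: Green's formula on quaternionic hyperbolic space of any dimension
(port of Helper59/Un/GREEN)
-/

namespace Pool.Agent.Helper19.Qh

open MeasureTheory Topology
open scoped ComplexConjugate

variable {m : ℕ}

/-! ## real linear maps -/

/-- the real linear form `inner (qu r)` (the `r`-th coordinate of a quaternion) -/
noncomputable def green_co (r : Fin 4) : Q →L[ℝ] ℝ := innerSL ℝ (qu r)

theorem green_co_apply (r : Fin 4) (q : Q) : green_co r q = inner ℝ (qu r) q := rfl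

theorem green_co_zero (q : Q) : green_co 0 q = q.re := by
  rw [green_co_apply, Quaternion.inner_def]
  simp [qu, Quaternion.re_mul]

theorem green_co_sum (q : Q) : ∑ r : Fin 4, green_co r q • qu r = q := by
  simp only [Fin.sum_univ_four, green_co_apply, Quaternion.inner_def]
  ext <;> simp [qu, Quaternion.re_mul]

/-- the real linear map `y ↦ ⟨e, y⟩` -/
noncomputable def green_hin (e : E m) : E m →L[ℝ] Q :=
  LinearMap.mkContinuous
    { toFun := fun y => hin e y
      map_add' := fun x y => hin_add_right e x y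
      map_smul' := fun c x => hin_rsmul_right c e x } ‖e‖ (fun y => norm_hin_le e y)

theorem green_hin_apply (e y : E m) : green_hin e y = hin e y := rfl

theorem green_contDiff_hgt {n : WithTop ℕ∞} : ContDiff ℝ n (hgt : Pt m → ℝ) := by
  have h1 : ContDiff ℝ n fun p : Pt m => p.1.re := by
    have h : ContDiff ℝ n fun p : Pt m => green_co 0 p.1 := (green_co 0).contDiff.comp contDiff_fst
    simpa only [green_co_zero] using h
  have h2 : ContDiff ℝ n fun p : Pt m => ‖p.2‖ ^ 2 := contDiff_snd.norm_sq ℝ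
  exact ((contDiff_const.mul h1).add h2).neg

/-! ## functions supported in compact subsets of the Siegel domain -/

theorem green_continuous_of_SD {F : Type*} [TopologicalSpace F] [Zero F] {f : Pt m → F} {K : Set (Pt m)}
    (hK : IsClosed K) (hKU : K ⊆ SD m) (hf : ContinuousOn f (SD m)) (h0 : ∀ p, p ∉ K → f p = 0) :
    Continuous f := by
  rw [continuous_iff_continuousAt]
  intro p
  by_cases hp : p ∈ SD m
  · exact hf.continuousAt (isOpen_SD.mem_nhds hp)
  · have hpK : p ∈ Kᶜ := fun h => hp (hKU h)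
    have hev : f =ᶠ[𝓝 p] fun _ => 0 := by
      filter_upwards [hK.isOpen_compl.mem_nhds hpK] with q hq
      exact h0 q hq
    exact continuousAt_const.congr hev.symm

theorem green_isHaar : (volume : Measure (Pt m)).IsAddHaarMeasure :=
  Measure.prod.instIsAddHaarMeasure _ _

theorem green_integrable_vol {F : Type*} [NormedAddCommGroup F] {f : Pt m → F} {K : Set (Pt m)}
    (hK : IsCompact K) (hf : Continuous f) (h0 : ∀ p, p ∉ K → f p = 0) :
    Integrable f (volume : Measure (Pt m)) := by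
  have := green_isHaar (m := m)
  exact hf.integrable_of_hasCompactSupport (HasCompactSupport.intro hK h0)

theorem green_measurable_weight :
    Measurable fun p : Pt m => ENNReal.ofReal ((hgt p ^ (2 * m + 4))⁻¹) :=
  ((continuous_hgt.measurable.pow_const (2 * m + 4)).inv).ennreal_ofReal

theorem green_integral_hyp {F : Type*} [NormedAddCommGroup F] [NormedSpace ℝ F] (f : Pt m → F) :
    ∫ p, f p ∂(hyp m) = ∫ p in SD m, ((hgt p ^ (2 * m + 4))⁻¹ : ℝ) • f p := by
  unfold hyp
  rw [integral_withDensity_eq_integral_toReal_smul green_measurable_weight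
    (Filter.Eventually.of_forall fun _ => ENNReal.ofReal_lt_top)]
  refine setIntegral_congr_fun isOpen_SD.measurableSet fun p hp => ?_
  have hp' : (0 : ℝ) < hgt p := hp
  rw [ENNReal.toReal_ofReal (by positivity)]

/-! ## continuity of the partial derivatives -/

/-- the horizontal vector fields -/
noncomputable def green_vX (e : E m) (p : Pt m) : Pt m := (-hin e p.2, e)

theorem green_XX_eq (e : E m) (f : Pt m → ℂ) (p : Pt m) : XX e f p = pd (green_vX e p) f p := rfl

theorem green_contDiff_vX {n : WithTop ℕ∞} (e : E m) : ContDiff ℝ n (green_vX e) := by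
  have h : ContDiff ℝ n fun p : Pt m => green_hin e p.2 := (green_hin e).contDiff.comp contDiff_snd
  exact h.neg.prodMk contDiff_const

theorem green_continuousOn_pd (e : Pt m) {f : Pt m → ℂ} (hf : ContDiffOn ℝ 1 f (SD m)) :
    ContinuousOn (pd e f) (SD m) := by
  have h := hf.continuousOn_fderiv_of_isOpen isOpen_SD le_rfl
  exact h.clm_apply continuousOn_const

theorem green_continuousOn_XX (e : E m) {f : Pt m → ℂ} (hf : ContDiffOn ℝ 1 f (SD m)) :
    ContinuousOn (XX e f) (SD m) := by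
  have h := hf.continuousOn_fderiv_of_isOpen isOpen_SD le_rfl
  exact h.clm_apply (green_contDiff_vX (n := 0) e).continuous.continuousOn

theorem green_contDiffOn_fd {f : Pt m → ℂ} (hf : ContDiffOn ℝ 2 f (SD m)) :
    ContDiffOn ℝ 1 (fderiv ℝ f) (SD m) := by
  refine hf.fderiv_of_isOpen isOpen_SD ?_
  norm_num

theorem green_contDiffOn_pd (e : Pt m) {f : Pt m → ℂ} (hf : ContDiffOn ℝ 2 f (SD m)) :
    ContDiffOn ℝ 1 (pd e f) (SD m) := (green_contDiffOn_fd hf).clm_apply contDiffOn_const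

theorem green_contDiffOn_XX (e : E m) {f : Pt m → ℂ} (hf : ContDiffOn ℝ 2 f (SD m)) :
    ContDiffOn ℝ 1 (XX e f) (SD m) :=
  (green_contDiffOn_fd hf).clm_apply (green_contDiff_vX e).contDiffOn

theorem green_differentiableAt_of {f : Pt m → ℂ} (hf : ContDiffOn ℝ 1 f (SD m)) {p : Pt m}
    (hp : p ∈ SD m) : DifferentiableAt ℝ f p :=
  (hf.contDiffAt (isOpen_SD.mem_nhds hp)).differentiableAt one_ne_zero

/-! ## Green's formula -/

theorem green_pd_zero_off (e : Pt m) {φ : Pt m → ℂ} {p : Pt m} (hp : p ∉ tsupport φ) :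
    pd e φ p = 0 := by
  unfold pd
  have : fderiv ℝ φ p = 0 := by
    by_contra hne
    exact hp (tsupport_fderiv_subset ℝ (subset_tsupport _ hne))
  rw [this]; rfl

theorem green_continuous_pd {φ : Pt m → ℂ} (hφ : ContDiff ℝ 1 φ) (e : Pt m) :
    Continuous (pd e φ) := by
  have := hφ.continuous_fderiv one_ne_zero
  exact this.clm_apply continuous_const

theorem green_continuous_XX (e : E m) {φ : Pt m → ℂ} (hφ : ContDiff ℝ 1 φ) :
    Continuous (XX e φ) := by
  have := hφ.continuous_fderiv one_ne_zero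
  exact this.clm_apply (green_contDiff_vX (n := 0) e).continuous

/-- integrability of functions supported in the support of a test function -/
theorem green_integrable_SD {φ : Pt m → ℂ} (hc : HasCompactSupport φ) (hs : tsupport φ ⊆ SD m)
    {f : Pt m → ℂ} (hf : ContinuousOn f (SD m)) (h0 : ∀ p, p ∉ tsupport φ → f p = 0) :
    Integrable f (volume.restrict (SD m)) :=
  (green_integrable_vol hc (green_continuous_of_SD hc.isClosed hs hf h0) h0).restrict

theorem green_integrable_SDm {φ : Pt m → ℂ} (hc : HasCompactSupport φ) (hs : tsupport φ ⊆ SD m)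
    {f g : Pt m → ℂ} (hf : ContinuousOn f (SD m)) (hg : ContinuousOn g (SD m))
    (h0 : ∀ p, p ∉ tsupport φ → g p = 0) :
    Integrable (fun p => f p * g p) (volume.restrict (SD m)) :=
  green_integrable_SD hc hs (hf.mul hg) fun p hp => by
    rw [h0 p hp, mul_zero]

/-- integration by parts against a test function -/
theorem green_ibp {w φ : Pt m → ℂ} (hw : ContDiffOn ℝ 1 w (SD m)) (hφ : ContDiff ℝ 1 φ)
    (hc : HasCompactSupport φ) (hs : tsupport φ ⊆ SD m) (e : Pt m) :
    ∫ p in SD m, w p * pd e φ p = - ∫ p in SD m, pd e w p * φ p := by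
  have := green_isHaar (m := m)
  have h0 : ∀ p, p ∉ tsupport φ → φ p = 0 := fun p hp => image_eq_zero_of_notMem_tsupport hp
  have h1 : ∀ p, p ∉ tsupport φ → pd e φ p = 0 := fun p hp => green_pd_zero_off e hp
  have hφ' : Continuous (pd e φ) := green_continuous_pd hφ e
  have c1 : Continuous fun p => w p * pd e φ p :=
    green_continuous_of_SD hc.isClosed hs (hw.continuousOn.mul hφ'.continuousOn)
      fun p hp => by rw [h1 p hp, mul_zero]
  have c2 : Continuous fun p => pd e w p * φ p :=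
    green_continuous_of_SD hc.isClosed hs ((green_continuousOn_pd e hw).mul hφ.continuous.continuousOn)
      fun p hp => by rw [h0 p hp, mul_zero]
  have c3 : Continuous fun p => w p * φ p :=
    green_continuous_of_SD hc.isClosed hs (hw.continuousOn.mul hφ.continuous.continuousOn)
      fun p hp => by rw [h0 p hp, mul_zero]
  have key := integral_bilinear_hasLineDerivAt_right_eq_neg_left_of_integrable
    (μ := (volume : Measure (Pt m))) (f := w) (f' := pd e w) (g := φ) (g' := pd e φ) (v := e)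
    (B := ContinuousLinearMap.mul ℝ ℂ)
    (by simpa using green_integrable_vol hc c2 fun p hp => by rw [h0 p hp, mul_zero])
    (by simpa using green_integrable_vol hc c1 fun p hp => by rw [h1 p hp, mul_zero])
    (by simpa using green_integrable_vol hc c3 fun p hp => by rw [h0 p hp, mul_zero])
    (fun p hp => (green_differentiableAt_of hw (hs hp)).hasFDerivAt.hasLineDerivAt e)
    (fun p _ => (hφ.differentiable one_ne_zero p).hasFDerivAt.hasLineDerivAt e)
  simp only [ContinuousLinearMap.mul_apply'] at key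
  have e1' : ∫ p in SD m, w p * pd e φ p = ∫ p, w p * pd e φ p := by
    refine setIntegral_eq_integral_of_forall_compl_eq_zero fun p hp => ?_
    rw [h1 p fun h => hp (hs h), mul_zero]
  have e2' : ∫ p in SD m, pd e w p * φ p = ∫ p, pd e w p * φ p := by
    refine setIntegral_eq_integral_of_forall_compl_eq_zero fun p hp => ?_
    rw [h0 p fun h => hp (hs h), mul_zero]
  rw [e1', e2']
  exact key

theorem green_pd_mul (e : Pt m) {f h : Pt m → ℂ} {p : Pt m} (hf : DifferentiableAt ℝ f p)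
    (hh : DifferentiableAt ℝ h p) :
    pd e (fun q => f q * h q) p = f p * pd e h p + h p * pd e f p := by
  unfold pd
  have h1 : fderiv ℝ (fun q => f q * h q) p = _ := (hf.hasFDerivAt.mul hh.hasFDerivAt).fderiv
  rw [h1]
  simp [smul_eq_mul]

/-- the coefficients of the horizontal field, as complex valued functions -/
noncomputable def green_cf (e : E m) (r : Fin 4) (p : Pt m) : ℂ :=
  ((-green_co r (hin e p.2) : ℝ) : ℂ)

/-- the coefficient as a continuous linear map -/
noncomputable def green_cfL (e : E m) (r : Fin 4) : Pt m →L[ℝ] ℂ :=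
  (-(Complex.ofRealCLM.comp ((green_co r).comp (green_hin e)))).comp
    (ContinuousLinearMap.snd ℝ Q (E m))

theorem green_cfL_eq (e : E m) (r : Fin 4) : green_cf e r = green_cfL e r := by
  funext p
  change ((-green_co r (hin e p.2) : ℝ) : ℂ) = -((green_co r (hin e p.2) : ℝ) : ℂ)
  push_cast
  rfl

theorem green_contDiff_cf {n : WithTop ℕ∞} (e : E m) (r : Fin 4) : ContDiff ℝ n (green_cf e r) := by
  rw [green_cfL_eq]
  exact (green_cfL e r).contDiff

theorem green_pd_cf (e : E m) (r : Fin 4) (z : Q) (p : Pt m) : pd (z, 0) (green_cf e r) p = 0 := by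
  unfold pd
  rw [green_cfL_eq, (green_cfL e r).fderiv]
  change -((green_co r (green_hin e 0) : ℝ) : ℂ) = 0
  rw [map_zero, map_zero]
  simp

theorem green_XX_pd (e : E m) (f : Pt m → ℂ) (p : Pt m) :
    XX e f p = pd (0, e) f p + ∑ r : Fin 4, green_cf e r p * pd (qu r, 0) f p := by
  have h : green_vX e p = (0, e) + ∑ r : Fin 4, (-green_co r (hin e p.2)) • ((qu r, 0) : Pt m) := by
    have h1 : ∑ r : Fin 4, (-green_co r (hin e p.2)) • ((qu r, 0) : Pt m) = (-hin e p.2, 0) := by
      have h2 : ∀ r : Fin 4, (-green_co r (hin e p.2)) • ((qu r, 0) : Pt m) =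
          -((LinearMap.inl ℝ Q (E m)) (green_co r (hin e p.2) • qu r)) := by
        intro r
        refine Prod.ext ?_ ?_
        · change (-green_co r (hin e p.2)) • qu r = -(green_co r (hin e p.2) • qu r)
          rw [neg_smul]
        · change (-green_co r (hin e p.2)) • (0 : E m) = -(0 : E m)
          rw [smul_zero, neg_zero]
      rw [Finset.sum_congr rfl fun r _ => h2 r, Finset.sum_neg_distrib, ← map_sum, green_co_sum]
      refine Prod.ext rfl ?_
      change -(0 : E m) = 0
      rw [neg_zero]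
    rw [h1]
    refine Prod.ext ?_ ?_
    · change -hin e p.2 = 0 + -hin e p.2
      rw [zero_add]
    · change e = e + 0
      rw [add_zero]
  rw [green_XX_eq, h]
  unfold pd
  rw [map_add, map_sum]
  congr 1
  refine Finset.sum_congr rfl fun r _ => ?_
  rw [map_smul, Complex.real_smul]
  rfl

theorem green_pd_sum {ι : Type*} (s : Finset ι) (e : Pt m) {f : ι → Pt m → ℂ} {p : Pt m}
    (hf : ∀ i ∈ s, DifferentiableAt ℝ (f i) p) :
    pd e (fun q => ∑ i ∈ s, f i q) p = ∑ i ∈ s, pd e (f i) p := by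
  unfold pd
  rw [fderiv_fun_sum hf]
  exact sum_apply s _ e

theorem green_integral_add2 {f g : Pt m → ℂ} {μ : Measure (Pt m)} (hf : Integrable f μ)
    (hg : Integrable g μ) :
    (∫ p, f p ∂μ) + (∫ p, g p ∂μ) = ∫ p, (f p + g p) ∂μ := (integral_add hf hg).symm

/-- integration by parts for a horizontal field -/
theorem green_ibp_XX (e : E m) {w φ : Pt m → ℂ} (hw : ContDiffOn ℝ 1 w (SD m))
    (hφ : ContDiff ℝ 1 φ) (hc : HasCompactSupport φ) (hs : tsupport φ ⊆ SD m) :
    ∫ p in SD m, w p * XX e φ p = - ∫ p in SD m, XX e w p * φ p := by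
  have h0 : ∀ p, p ∉ tsupport φ → φ p = 0 := fun p hp => image_eq_zero_of_notMem_tsupport hp
  have haw : ∀ r : Fin 4, ContDiffOn ℝ 1 (fun p => green_cf e r p * w p) (SD m) := fun r =>
    (green_contDiff_cf e r).contDiffOn.mul hw
  have k1 := green_ibp hw hφ hc hs (0, e)
  have k2 := fun r : Fin 4 => green_ibp (haw r) hφ hc hs (qu r, 0)
  have i1 : ∀ e' : Pt m, ∀ w' : Pt m → ℂ, ContDiffOn ℝ 1 w' (SD m) →
      Integrable (fun p => w' p * pd e' φ p) (volume.restrict (SD m)) := fun e' w' hw' =>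
    green_integrable_SD hc hs (hw'.continuousOn.mul (green_continuous_pd hφ e').continuousOn)
      fun p hp => by rw [green_pd_zero_off e' hp, mul_zero]
  have i2 : ∀ e' : Pt m, ∀ w' : Pt m → ℂ, ContDiffOn ℝ 1 w' (SD m) →
      Integrable (fun p => pd e' w' p * φ p) (volume.restrict (SD m)) := fun e' w' hw' =>
    green_integrable_SD hc hs ((green_continuousOn_pd e' hw').mul hφ.continuous.continuousOn)
      fun p hp => by rw [h0 p hp, mul_zero]
  have e1 : ∫ p in SD m, w p * XX e φ p =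
      (∫ p in SD m, w p * pd (0, e) φ p) +
        ∑ r : Fin 4, ∫ p in SD m, (fun p => green_cf e r p * w p) p * pd (qu r, 0) φ p := by
    rw [← integral_finsetSum _ fun r _ => i1 _ _ (haw r),
      green_integral_add2 (i1 _ _ hw) (integrable_finsetSum _ fun r _ => i1 _ _ (haw r))]
    refine integral_congr_ae (Filter.Eventually.of_forall fun p => ?_)
    simp only
    rw [green_XX_pd, mul_add, Finset.mul_sum]
    congr 1
    refine Finset.sum_congr rfl fun r _ => ?_
    ring
  have e2 : ∫ p in SD m, XX e w p * φ p =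
      (∫ p in SD m, pd (0, e) w p * φ p) +
        ∑ r : Fin 4, ∫ p in SD m, pd (qu r, 0) (fun p => green_cf e r p * w p) p * φ p := by
    rw [← integral_finsetSum _ fun r _ => i2 _ _ (haw r),
      green_integral_add2 (i2 _ _ hw) (integrable_finsetSum _ fun r _ => i2 _ _ (haw r))]
    refine setIntegral_congr_fun isOpen_SD.measurableSet fun p hp => ?_
    have hwd := green_differentiableAt_of hw hp
    change XX e w p * φ p = pd (0, e) w p * φ p +
      ∑ r : Fin 4, pd (qu r, 0) (fun p => green_cf e r p * w p) p * φ p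
    rw [green_XX_pd, add_mul, Finset.sum_mul]
    congr 1
    refine Finset.sum_congr rfl fun r _ => ?_
    rw [green_pd_mul _ ((green_contDiff_cf e r).differentiable one_ne_zero p) hwd, green_pd_cf]
    ring
  rw [e1, e2, k1, Finset.sum_congr rfl fun r _ => k2 r, Finset.sum_neg_distrib]
  ring

/-! ## the height -/

theorem green_hasFDerivAt_hgt (p : Pt m) : HasFDerivAt (hgt : Pt m → ℝ)
    (-((2 : ℝ) • (green_co 0).comp (ContinuousLinearMap.fst ℝ Q (E m)) +
      (2 : ℝ) • (innerSL ℝ p.2).comp (ContinuousLinearMap.snd ℝ Q (E m)))) p := by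
  have h1 : HasFDerivAt (fun q : Pt m => 2 * q.1.re)
      ((2 : ℝ) • (green_co 0).comp (ContinuousLinearMap.fst ℝ Q (E m))) p := by
    have h := ((green_co 0).comp (ContinuousLinearMap.fst ℝ Q (E m))).hasFDerivAt (x := p)
    have h' := h.const_mul 2
    refine h'.congr_of_eventuallyEq (Filter.Eventually.of_forall fun q => ?_)
    change 2 * q.1.re = 2 * green_co 0 q.1
    rw [green_co_zero]
  have h2 : HasFDerivAt (fun q : Pt m => ‖q.2‖ ^ 2)
      ((2 : ℝ) • (innerSL ℝ p.2).comp (ContinuousLinearMap.snd ℝ Q (E m))) p := by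
    have h3 : HasFDerivAt (fun q : Pt m => q.2) (ContinuousLinearMap.snd ℝ Q (E m)) p :=
      hasFDerivAt_snd
    have h4 := h3.norm_sq
    refine h4.congr_fderiv (ContinuousLinearMap.ext fun e => ?_)
    simp only [smul_apply, ContinuousLinearMap.comp_apply, nsmul_eq_mul, smul_eq_mul,
      ContinuousLinearMap.coe_snd', innerSL_apply_apply]
    norm_num
  exact (h1.add h2).neg

theorem green_fd_hgt (p e : Pt m) : fderiv ℝ hgt p e = -(2 * e.1.re + 2 * inner ℝ p.2 e.2) := by
  rw [(green_hasFDerivAt_hgt p).fderiv]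
  change -(2 * green_co 0 e.1 + 2 * inner ℝ p.2 e.2) = -(2 * e.1.re + 2 * inner ℝ p.2 e.2)
  rw [green_co_zero]

theorem green_fd_hgt_qu (p : Pt m) (r : Fin 4) :
    fderiv ℝ hgt p (qu r, 0) = if r = 0 then -2 else 0 := by
  rw [green_fd_hgt, inner_zero_right]
  fin_cases r <;> simp [qu]

theorem green_fd_hgt_X (e : E m) (p : Pt m) : fderiv ℝ hgt p (green_vX e p) = 0 := by
  rw [green_fd_hgt]
  change -(2 * (-hin e p.2).re + 2 * inner ℝ p.2 e) = 0
  rw [inner_re, ← star_hin e p.2, Quaternion.re_star, Quaternion.re_neg]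
  ring

theorem green_pd_w (k : ℕ) (e : Pt m) {f : Pt m → ℂ} {p : Pt m} (hp : p ∈ SD m)
    (hf : DifferentiableAt ℝ f p) :
    pd e (fun q => ((hgt q ^ k)⁻¹ : ℝ) • f q) p = ((hgt p ^ k)⁻¹ : ℝ) • pd e f p +
      (-(k * (hgt p ^ (k + 1))⁻¹ * fderiv ℝ hgt p e) : ℝ) • f p := by
  have hp' : (0 : ℝ) < hgt p := hp
  have h0 : HasDerivAt (fun t : ℝ => (t ^ k)⁻¹) (-(k * (hgt p ^ (k + 1))⁻¹)) (hgt p) := by
    have h := (hasDerivAt_pow k (hgt p)).inv (by positivity)
    refine h.congr_deriv ?_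
    rcases k with _ | k
    · simp
    · simp only [Nat.add_sub_cancel]
      field_simp
      ring
  have hd : HasFDerivAt hgt (fderiv ℝ hgt p) p :=
    (green_contDiff_hgt.differentiable one_ne_zero p).hasFDerivAt
  have h1 : HasFDerivAt (fun q : Pt m => (hgt q ^ k)⁻¹)
      ((-(k * (hgt p ^ (k + 1))⁻¹) : ℝ) • fderiv ℝ hgt p) p := h0.comp_hasFDerivAt p hd
  have h2 := hf.hasFDerivAt
  have h3 := h1.smul h2
  have h4 : fderiv ℝ (fun q => ((hgt q ^ k)⁻¹ : ℝ) • f q) p = _ := h3.fderiv
  unfold pd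
  rw [h4]
  simp only [add_apply, smul_apply,
    ContinuousLinearMap.smulRight_apply, smul_eq_mul]
  rw [neg_mul]

theorem green_contDiffOn_inv_hgt (k : ℕ) : ContDiffOn ℝ 1 (fun p : Pt m => (hgt p ^ k)⁻¹) (SD m) :=
  (green_contDiff_hgt.pow k).contDiffOn.inv fun p hp => by
    have hp' : (0 : ℝ) < hgt p := hp
    positivity

theorem green_contDiffOn_w (k : ℕ) {f : Pt m → ℂ} (hf : ContDiffOn ℝ 1 f (SD m)) :
    ContDiffOn ℝ 1 (fun q => ((hgt q ^ k)⁻¹ : ℝ) • f q) (SD m) :=
  (green_contDiffOn_inv_hgt k).smul hf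

theorem green_main {u : Pt m → ℂ} (hu : ContDiffOn ℝ 2 u (SD m)) (lam : ℂ)
    (heig : ∀ p ∈ SD m, lap u p = -lam * u p) : WeakEig lam u := by
  intro φ hφ hc hs
  have h0 : ∀ p, p ∉ tsupport φ → φ p = 0 := fun p hp => image_eq_zero_of_notMem_tsupport hp
  have c1 := fun r : Fin 4 => green_contDiffOn_w (2 * m + 2) (green_contDiffOn_pd (qu r, 0) hu)
  have c3 := fun e : E m => green_contDiffOn_w (2 * m + 3) (green_contDiffOn_XX e hu)
  have k1 := fun r : Fin 4 => green_ibp (c1 r) hφ hc hs (qu r, 0)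
  have k3 := fun e : E m => green_ibp_XX e (c3 e) hφ hc hs
  have i1 := fun r : Fin 4 => green_integrable_SDm hc hs (c1 r).continuousOn
    (green_continuous_pd hφ (qu r, 0)).continuousOn fun p hp => green_pd_zero_off _ hp
  have i3 := fun e : E m => green_integrable_SDm hc hs (c3 e).continuousOn
    (green_continuous_XX e hφ).continuousOn fun p hp => green_pd_zero_off _ hp
  have j1 := fun r : Fin 4 => green_integrable_SDm hc hs (green_continuousOn_pd (qu r, 0) (c1 r))
    hφ.continuous.continuousOn h0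
  have j3 := fun e : E m => green_integrable_SDm hc hs (green_continuousOn_XX e (c3 e))
    hφ.continuous.continuousOn h0
  have i1s : Integrable (fun p => ∑ r : Fin 4, (((hgt p ^ (2 * m + 2))⁻¹ : ℝ) • pd (qu r, 0) u p) *
      pd (qu r, 0) φ p) (volume.restrict (SD m)) := integrable_finsetSum _ fun r _ => i1 r
  have j1s : Integrable (fun p => ∑ r : Fin 4,
      pd (qu r, 0) (fun q => ((hgt q ^ (2 * m + 2))⁻¹ : ℝ) • pd (qu r, 0) u q) p * φ p)
      (volume.restrict (SD m)) := integrable_finsetSum _ fun r _ => j1 r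
  have i3k : ∀ k : Fin m, Integrable (fun p => ∑ r : Fin 4,
      (((hgt p ^ (2 * m + 3))⁻¹ : ℝ) • XX (ek k (qu r)) u p) * XX (ek k (qu r)) φ p)
      (volume.restrict (SD m)) := fun k => integrable_finsetSum _ fun r _ => i3 (ek k (qu r))
  have j3k : ∀ k : Fin m, Integrable (fun p => ∑ r : Fin 4,
      XX (ek k (qu r)) (fun q => ((hgt q ^ (2 * m + 3))⁻¹ : ℝ) • XX (ek k (qu r)) u q) p * φ p)
      (volume.restrict (SD m)) := fun k => integrable_finsetSum _ fun r _ => j3 (ek k (qu r))
  have i3s : Integrable (fun p => ∑ k : Fin m, ∑ r : Fin 4,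
      (((hgt p ^ (2 * m + 3))⁻¹ : ℝ) • XX (ek k (qu r)) u p) * XX (ek k (qu r)) φ p)
      (volume.restrict (SD m)) := integrable_finsetSum _ fun k _ => i3k k
  have j3s : Integrable (fun p => ∑ k : Fin m, ∑ r : Fin 4,
      XX (ek k (qu r)) (fun q => ((hgt q ^ (2 * m + 3))⁻¹ : ℝ) • XX (ek k (qu r)) u q) p * φ p)
      (volume.restrict (SD m)) := integrable_finsetSum _ fun k _ => j3k k
  have s1 : ∫ p in SD m, ∑ r : Fin 4, (((hgt p ^ (2 * m + 2))⁻¹ : ℝ) • pd (qu r, 0) u p) *
      pd (qu r, 0) φ p = - ∫ p in SD m, ∑ r : Fin 4,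
      pd (qu r, 0) (fun q => ((hgt q ^ (2 * m + 2))⁻¹ : ℝ) • pd (qu r, 0) u q) p * φ p := by
    rw [integral_finsetSum _ fun r _ => i1 r, integral_finsetSum _ fun r _ => j1 r,
      ← Finset.sum_neg_distrib]
    exact Finset.sum_congr rfl fun r _ => k1 r
  have s3 : ∫ p in SD m, ∑ k : Fin m, ∑ r : Fin 4,
      (((hgt p ^ (2 * m + 3))⁻¹ : ℝ) • XX (ek k (qu r)) u p) * XX (ek k (qu r)) φ p =
      - ∫ p in SD m, ∑ k : Fin m, ∑ r : Fin 4,
      XX (ek k (qu r)) (fun q => ((hgt q ^ (2 * m + 3))⁻¹ : ℝ) • XX (ek k (qu r)) u q) p * φ p := by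
    rw [integral_finsetSum _ fun k _ => i3k k, integral_finsetSum _ fun k _ => j3k k,
      ← Finset.sum_neg_distrib]
    refine Finset.sum_congr rfl fun k _ => ?_
    rw [integral_finsetSum _ fun r _ => i3 (ek k (qu r)),
      integral_finsetSum _ fun r _ => j3 (ek k (qu r)), ← Finset.sum_neg_distrib]
    exact Finset.sum_congr rfl fun r _ => k3 (ek k (qu r))
  rw [green_integral_hyp, green_integral_hyp, ← integral_const_mul]
  have hL : ∫ p in SD m, ((hgt p ^ (2 * m + 4))⁻¹ : ℝ) • gdot u φ p =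
      (∫ p in SD m, ∑ r : Fin 4, (((hgt p ^ (2 * m + 2))⁻¹ : ℝ) • pd (qu r, 0) u p) *
      pd (qu r, 0) φ p) +
      (∫ p in SD m, ∑ k : Fin m, ∑ r : Fin 4,
      (((hgt p ^ (2 * m + 3))⁻¹ : ℝ) • XX (ek k (qu r)) u p) * XX (ek k (qu r)) φ p) := by
    rw [green_integral_add2 i1s i3s]
    refine setIntegral_congr_fun isOpen_SD.measurableSet fun p hp => ?_
    have hp' : (0 : ℝ) < hgt p := hp
    have hne : (hgt p : ℂ) ≠ 0 := by exact_mod_cast hp'.ne'
    simp only [gdot, Complex.real_smul]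
    have e0 : ∑ r : Fin 4, (((hgt p ^ (2 * m + 2))⁻¹ : ℝ) : ℂ) * pd (qu r, 0) u p *
        pd (qu r, 0) φ p = (((hgt p ^ (2 * m + 2))⁻¹ : ℝ) : ℂ) *
        ∑ r : Fin 4, pd (qu r, 0) u p * pd (qu r, 0) φ p := by
      rw [Finset.mul_sum]
      exact Finset.sum_congr rfl fun r _ => by ring
    have e1 : ∑ k : Fin m, ∑ r : Fin 4, (((hgt p ^ (2 * m + 3))⁻¹ : ℝ) : ℂ) *
        XX (ek k (qu r)) u p * XX (ek k (qu r)) φ p =
        (((hgt p ^ (2 * m + 3))⁻¹ : ℝ) : ℂ) *
        ∑ k : Fin m, ∑ r : Fin 4, XX (ek k (qu r)) u p * XX (ek k (qu r)) φ p := by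
      rw [Finset.mul_sum]
      refine Finset.sum_congr rfl fun k _ => ?_
      rw [Finset.mul_sum]
      exact Finset.sum_congr rfl fun r _ => by ring
    rw [e0, e1]
    generalize ∑ k : Fin m, ∑ r : Fin 4, XX (ek k (qu r)) u p * XX (ek k (qu r)) φ p = S
    generalize ∑ r : Fin 4, pd (qu r, 0) u p * pd (qu r, 0) φ p = S'
    push_cast
    field_simp
    ring
  have hR : ∫ p in SD m, lam * (((hgt p ^ (2 * m + 4))⁻¹ : ℝ) • (u p * φ p)) =
      -((∫ p in SD m, ∑ r : Fin 4,
        pd (qu r, 0) (fun q => ((hgt q ^ (2 * m + 2))⁻¹ : ℝ) • pd (qu r, 0) u q) p * φ p) +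
      (∫ p in SD m, ∑ k : Fin m, ∑ r : Fin 4,
        XX (ek k (qu r)) (fun q => ((hgt q ^ (2 * m + 3))⁻¹ : ℝ) • XX (ek k (qu r)) u q) p *
          φ p)) := by
    rw [green_integral_add2 j1s j3s, ← integral_neg]
    refine setIntegral_congr_fun isOpen_SD.measurableSet fun p hp => ?_
    have hp' : (0 : ℝ) < hgt p := hp
    have hne : (hgt p : ℂ) ≠ 0 := by exact_mod_cast hp'.ne'
    have hE := heig p hp
    change lam * (((hgt p ^ (2 * m + 4))⁻¹ : ℝ) • (u p * φ p)) =
      -((∑ r : Fin 4,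
        pd (qu r, 0) (fun q => ((hgt q ^ (2 * m + 2))⁻¹ : ℝ) • pd (qu r, 0) u q) p * φ p) +
      ∑ k : Fin m, ∑ r : Fin 4,
        XX (ek k (qu r)) (fun q => ((hgt q ^ (2 * m + 3))⁻¹ : ℝ) • XX (ek k (qu r)) u q) p * φ p)
    have hX : ∀ e : E m, XX e (fun q => ((hgt q ^ (2 * m + 3))⁻¹ : ℝ) • XX e u q) p =
        (((hgt p ^ (2 * m + 3))⁻¹ : ℝ) : ℂ) * XX e (XX e u) p := by
      intro e
      rw [green_XX_eq e (fun q => ((hgt q ^ (2 * m + 3))⁻¹ : ℝ) • XX e u q),
        green_pd_w (2 * m + 3) _ hp (green_differentiableAt_of (green_contDiffOn_XX e hu) hp),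
        green_fd_hgt_X, ← green_XX_eq, Complex.real_smul, mul_zero, neg_zero, zero_smul, add_zero]
    have hP : ∀ r : Fin 4,
        pd (qu r, 0) (fun q => ((hgt q ^ (2 * m + 2))⁻¹ : ℝ) • pd (qu r, 0) u q) p * φ p =
        ((((hgt p ^ (2 * m + 2))⁻¹ : ℝ) : ℂ) * pd (qu r, 0) (pd (qu r, 0) u) p) * φ p +
        (if r = 0 then ((((2 * (2 * m + 2 : ℕ) : ℝ) * (hgt p ^ (2 * m + 3))⁻¹ : ℝ) : ℂ) *
          pd (1, 0) u p) * φ p else 0) := by
      intro r
      rw [green_pd_w (2 * m + 2) _ hp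
        (green_differentiableAt_of (green_contDiffOn_pd (qu r, 0) hu) hp), green_fd_hgt_qu,
        Complex.real_smul, Complex.real_smul]
      by_cases hr : r = 0
      · rw [if_pos hr, if_pos hr, hr]
        have hq : qu 0 = 1 := by
          simp only [qu]
          rfl
        rw [hq]
        push_cast
        ring
      · rw [if_neg hr, if_neg hr]
        simp
    have e0 : ∑ r : Fin 4,
        pd (qu r, 0) (fun q => ((hgt q ^ (2 * m + 2))⁻¹ : ℝ) • pd (qu r, 0) u q) p * φ p =
        (((hgt p ^ (2 * m + 2))⁻¹ : ℝ) : ℂ) * (∑ r : Fin 4, pd (qu r, 0) (pd (qu r, 0) u) p) *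
          φ p + ((((2 * (2 * m + 2 : ℕ) : ℝ) * (hgt p ^ (2 * m + 3))⁻¹ : ℝ) : ℂ) *
          pd (1, 0) u p) * φ p := by
      rw [Finset.sum_congr rfl fun r _ => hP r, Finset.sum_add_distrib, Finset.sum_ite_eq',
        if_pos (Finset.mem_univ _), Finset.mul_sum, Finset.sum_mul]
    have e1 : ∑ k : Fin m, ∑ r : Fin 4,
        XX (ek k (qu r)) (fun q => ((hgt q ^ (2 * m + 3))⁻¹ : ℝ) • XX (ek k (qu r)) u q) p * φ p =
        (((hgt p ^ (2 * m + 3))⁻¹ : ℝ) : ℂ) *
        (∑ k : Fin m, ∑ r : Fin 4, XX (ek k (qu r)) (XX (ek k (qu r)) u) p) * φ p := by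
      rw [Finset.mul_sum, Finset.sum_mul]
      refine Finset.sum_congr rfl fun k _ => ?_
      rw [Finset.mul_sum, Finset.sum_mul]
      refine Finset.sum_congr rfl fun r _ => ?_
      rw [hX]
    rw [e0, e1]
    have hE' : lam * u p = -((hgt p : ℂ) ^ 2 * ∑ r : Fin 4, pd (qu r, 0) (pd (qu r, 0) u) p +
        (4 * (m : ℂ) + 4) * (hgt p : ℂ) * pd (1, 0) u p +
        (hgt p : ℂ) * ∑ k : Fin m, ∑ r : Fin 4, XX (ek k (qu r)) (XX (ek k (qu r)) u) p) := by
      unfold lap at hE
      linear_combination hE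
    have h7 : lam * (((hgt p ^ (2 * m + 4))⁻¹ : ℝ) • (u p * φ p)) =
        (((hgt p ^ (2 * m + 4))⁻¹ : ℝ) : ℂ) * (lam * u p) * φ p := by
      rw [Complex.real_smul]; ring
    rw [h7, hE']
    generalize ∑ k : Fin m, ∑ r : Fin 4, XX (ek k (qu r)) (XX (ek k (qu r)) u) p = S
    generalize ∑ r : Fin 4, pd (qu r, 0) (pd (qu r, 0) u) p = S'
    push_cast
    field_simp
    ring
  rw [hL, hR, s1, s3]
  ring

/-- the module GREEN -/
theorem st_GREEN : ST_GREEN := fun _ _ hu lam heig => green_main hu lam heig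

end Pool.Agent.Helper19.Qh

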